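import Pool.Agent.H.MP_ee9c6f_al.E3Rep.Main

/-!
MP_ee9c6f_al, genus 3, exact value (helper63). The action on the fibre `7`: images of points.
-/

set_option autoImplicit false

namespace Pool.Agent.H.MP_ee9c6f_al.G3X

open E3Rep

/-- product of Gaussian integers -/
def cmulG (x y : Gi) : Gi := (x.1 * y.1 - x.2 * y.2, x.1 * y.2 + x.2 * y.1)

section

variable {K : Type} [Field K] [CharZero K] (ι : K)

/-- the vector `l / 4` -/
def vq (l : List Gi) : Fin 8 → K := fun j => val ι (gt l j) / 4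

omit [CharZero K] in
theorem val_mul (hι : ι ^ 2 = -1) (x y : Gi) : val ι (cmulG x y) = val ι x * val ι y := by
  unfold val cmulG
  push_cast
  linear_combination (-(x.2 : K) * (y.2 : K)) * hι

/-- division by four -/
def psi : Gi →+ K where
  toFun z := val ι z / 4
  map_zero' := by simp [val]
  map_add' x y := by
    simp only [val, Prod.fst_add, Prod.snd_add]
    push_cast
    ring

theorem FW_pt (hι : ι ^ 2 = -1) {w : Wd} {q : Fin 28} {l l' : List Gi} (hq : sec w q = q)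
    (h8 : gt l 8 = (4, 0)) (hch : ∀ j < 8, cmulG (4, 0) (gt (ev (prg w q) l) j) =
      cmulG (gt (ev (prg w q) l) 8) (gt l' j)) :
    FW ι w (q, vq ι l) = (q, vq ι l') := by
  obtain ⟨a1, a2, a3⟩ := FW_spec ι hι w q (vq ι l)
  have h4 : (4 : K) ≠ 0 := by norm_num
  have hx : ∀ n < 9, ext (vq ι l) n = psi ι (gt l n) := by
    intro n hn
    by_cases hn8 : n < 8
    · rw [ext, dif_pos hn8]
      rfl
    · have : n = 8 := by omega
      subst this
      have e : psi ι (gt l 8) = val ι (gt l 8) / 4 := rfl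
      rw [e, h8]
      simp [ext, val]
  have he : ∀ j < 9, evM (roK ι) (prg w q) (ext (vq ι l)) j =
      val ι (gt (ev (prg w q) l) j) / 4 := by
    intro j hj
    have e1 := evM_congr (roK ι) (w := prg w q) hx j hj
    have e2 := evM_hom rot (roK ι) (psi ι) (fun k hk z => by
      change val ι (rot k z) / 4 = ι ^ k * (val ι z / 4)
      rw [val_rot ι hι hk]
      change ι ^ k * val ι z / 4 = _
      ring) (prg w q) (gt l) j
    rw [e1]
    exact e2.trans (by rw [gt_ev _ _ j hj]; rfl)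
  refine Prod.ext (Fin.ext (a1.trans hq)) ?_
  funext j
  have a4 := a3 j
  rw [he j (by omega), he 8 (by norm_num)] at a4
  rw [he 8 (by norm_num)] at a2
  have c1 := congrArg (val ι) (hch j j.2)
  rw [val_mul ι hι, val_mul ι hι] at c1
  have c2 : val ι ((4, 0) : Gi) = 4 := by simp [val]
  rw [c2] at c1
  have hE8 : val ι (gt (ev (prg w q) l) 8) ≠ 0 := fun h => a2 (by rw [h, zero_div])
  change (FW ι w (q, vq ι l)).2 j = val ι (gt l' j) / 4
  apply mul_left_cancel₀ hE8
  linear_combination (-4) * a4 + c1 / 4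

end

/-! ### The points -/

def lp : List Gi := [(0, 0), (0, 0), (-2, -2), (2, 2), (0, 0), (0, 0), (2, 2), (-2, -2), (4, 0)]
def lpd : List Gi := [(2, 0), (-2, 0), (0, -2), (0, 2), (-2, 0), (2, 0), (0, 2), (0, -2), (4, 0)]
def lpid : List Gi := [(0, 2), (0, -2), (-2, 0), (2, 0), (0, -2), (0, 2), (2, 0), (-2, 0), (4, 0)]
def lpr : List Gi := [(1, -1), (1, -1), (-3, -1), (1, 3), (-1, 1), (-1, 1), (3, 1), (-1, -3), (4, 0)]
def lpir : List Gi := [(1, 1), (1, 1), (-3, -3), (1, 1), (-1, -1), (-1, -1), (3, 3), (-1, -1), (4, 0)]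
def lpbd : List Gi := [(2, 0), (0, -2), (-2, 0), (0, 2), (-2, 0), (0, 2), (2, 0), (0, -2), (4, 0)]
def lpbr : List Gi := [(1, -1), (1, 1), (-3, -3), (1, 3), (-1, 1), (-1, -1), (3, 3), (-1, -3), (4, 0)]
def ld : List Gi := [(2, 0), (-2, 0), (2, 0), (-2, 0), (-2, 0), (2, 0), (-2, 0), (2, 0), (4, 0)]
def lr : List Gi := [(1, -1), (1, -1), (-1, 1), (-1, 1), (-1, 1), (-1, 1), (1, -1), (1, -1), (4, 0)]

section

variable {K : Type} [Field K] [CharZero K] {ι : K}

theorem pt0 (hι : ι ^ 2 = -1) : FW ι [(0, true)] (7, vq ι lp) = (7, vq ι lp) :=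
  FW_pt ι hι (by decide +kernel) rfl (by decide +kernel)
theorem pt2 (hι : ι ^ 2 = -1) : FW ι [(2, true)] (7, vq ι lp) = (7, vq ι lp) :=
  FW_pt ι hι (by decide +kernel) rfl (by decide +kernel)
theorem pt3 (hι : ι ^ 2 = -1) : FW ι [(3, true)] (7, vq ι lp) = (7, vq ι lp) :=
  FW_pt ι hι (by decide +kernel) rfl (by decide +kernel)
theorem pt5 (hι : ι ^ 2 = -1) : FW ι [(5, true)] (7, vq ι lp) = (7, vq ι lp) :=
  FW_pt ι hι (by decide +kernel) rfl (by decide +kernel)
theorem pt6 (hι : ι ^ 2 = -1) : FW ι [(6, true)] (7, vq ι lp) = (7, vq ι lp) :=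
  FW_pt ι hι (by decide +kernel) rfl (by decide +kernel)
theorem pt1 (hι : ι ^ 2 = -1) : FW ι [(1, true), (1, true)] (7, vq ι lp) = (7, vq ι lp) :=
  FW_pt ι hι (by decide +kernel) rfl (by decide +kernel)
theorem pt4 (hι : ι ^ 2 = -1) : FW ι [(4, true)] (7, vq ι lp) = (7, vq ι lpd) :=
  FW_pt ι hι (by decide +kernel) rfl (by decide +kernel)
theorem pt4' (hι : ι ^ 2 = -1) : FW ι [(4, false)] (7, vq ι lp) = (7, vq ι lpid) :=
  FW_pt ι hι (by decide +kernel) rfl (by decide +kernel)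
theorem pt6d (hι : ι ^ 2 = -1) : FW ι [(6, true)] (7, vq ι lpd) = (7, vq ι lpd) :=
  FW_pt ι hι (by decide +kernel) rfl (by decide +kernel)
theorem pt6r (hι : ι ^ 2 = -1) : FW ι [(6, true)] (7, vq ι lpr) = (7, vq ι lpir) :=
  FW_pt ι hι (by decide +kernel) rfl (by decide +kernel)
theorem pt5d (hι : ι ^ 2 = -1) : FW ι [(5, true)] (7, vq ι lpd) = (7, vq ι lpbd) :=
  FW_pt ι hι (by decide +kernel) rfl (by decide +kernel)
theorem pt5r (hι : ι ^ 2 = -1) : FW ι [(5, true)] (7, vq ι lpr) = (7, vq ι lpbr) :=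
  FW_pt ι hι (by decide +kernel) rfl (by decide +kernel)

theorem vq_add {l l' l'' : List Gi} (h : ∀ j < 8, gt l j + gt l' j = gt l'' j) :
    vq ι l + vq ι l' = vq ι l'' := by
  funext j
  have h1 := h j j.2
  change val ι (gt l j) / 4 + val ι (gt l' j) / 4 = val ι (gt l'' j) / 4
  rw [← h1]
  simp only [val, Prod.fst_add, Prod.snd_add]
  push_cast
  ring

theorem e_d : vq ι lpd = vq ι lp + vq ι ld := (vq_add (by decide +kernel)).symm

theorem e_r : vq ι lpr = vq ι lp + vq ι lr := (vq_add (by decide +kernel)).symm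

theorem e_id : vq ι lpid = vq ι lp + ι • vq ι ld := by
  funext j
  simp only [Pi.add_apply, Pi.smul_apply, smul_eq_mul, vq]
  fin_cases j <;> simp [lpid, lp, ld, gt, val] <;> ring

theorem e_ir (hι : ι ^ 2 = -1) : vq ι lpir = vq ι lp + ι • vq ι lr := by
  funext j
  simp only [Pi.add_apply, Pi.smul_apply, smul_eq_mul, vq]
  fin_cases j <;> simp [lpir, lp, lr, gt, val] <;>
    first | linear_combination (1 / 4 : K) * hι | linear_combination (-(1 / 4) : K) * hι

theorem e_bd : vq ι lpbd = vq ι lp + (((1 + ι) / 2) • vq ι ld + vq ι lr) := by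
  funext j
  simp only [Pi.add_apply, Pi.smul_apply, smul_eq_mul, vq]
  fin_cases j <;> simp [lpbd, lp, ld, lr, gt, val] <;> ring

theorem e_br (hι : ι ^ 2 = -1) : vq ι lpbr = vq ι lp + ((-(ι / 2)) • vq ι ld +
    ((1 + ι) / 2) • vq ι lr) := by
  funext j
  simp only [Pi.add_apply, Pi.smul_apply, smul_eq_mul, vq]
  fin_cases j <;> simp [lpbr, lp, ld, lr, gt, val] <;>
    first | linear_combination (1 / 8 : K) * hι | linear_combination (-(1 / 8) : K) * hι

theorem d_ne : vq ι ld ≠ 0 := by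
  intro h
  have := congrFun h 0
  have e : vq ι ld 0 = 1 / 2 := by
    simp only [vq]
    norm_num [ld, gt, val]
  rw [e, Pi.zero_apply] at this
  norm_num at this

/-- the action of the generators and of their inverses -/
theorem rho_of (hι : ι ^ 2 = -1) (c : Fin 7) (x : Fin 28 × (Fin 8 → K)) :
    rho hι (PresentedGroup.of c) x = FW ι [(c, true)] x :=
  lift_mk hι [(c, true)] x

theorem rho_of_inv (hι : ι ^ 2 = -1) (c : Fin 7) (x : Fin 28 × (Fin 8 → K)) :
    rho hι (PresentedGroup.of c)⁻¹ x = FW ι [(c, false)] x :=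
  lift_mk hι [(c, false)] x

/-- a word of infinite order on the fibre `7` -/
def lz7 : Wd := [(2, true), (4, false), (3, false), (3, false), (4, false), (2, true), (3, true),
  (3, true)]

/-- its translation -/
def tz7 : List Gi := [(-2, -2), (2, 2), (2, -2), (-2, 2), (-2, 2), (2, -2), (2, 2), (-2, -2)]

theorem chk_lz7 : chkq lz7 tz7 7 = true := by decide +kernel

/-- its element -/
def z7 : E3.Mod3 := PresentedGroup.mk E3.modRels (FreeGroup.mk lz7)

theorem rho_z7 (hι : ι ^ 2 = -1) : ∃ t : Fin 8 → K, t ≠ 0 ∧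
    ∀ v, rho hι z7 (7, v) = (7, v + t) := by
  obtain ⟨σ, hσ, h⟩ := FW_of_chkq (K := K) ι hι (w := lz7) (by decide +kernel) (τ := tz7)
    (by decide +kernel) (q := 7) chk_lz7
  refine ⟨fun j : Fin 8 => σ * val ι (gt tz7 j), ?_, fun v => ?_⟩
  · intro h0
    have h1 := congrFun h0 0
    have h3 := congrFun h0 2
    have h2 : gt tz7 ((0 : Fin 8) : ℕ) = (-2, -2) := rfl
    have h4 : gt tz7 ((2 : Fin 8) : ℕ) = (2, -2) := rfl
    rw [h2, Pi.zero_apply] at h1
    rw [h4, Pi.zero_apply] at h3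
    have h5 : val ι ((-2, -2) : Gi) = 0 := (mul_eq_zero.1 h1).resolve_left hσ
    have h6 : val ι ((2, -2) : Gi) = 0 := (mul_eq_zero.1 h3).resolve_left hσ
    simp only [val] at h5 h6
    push_cast at h5 h6
    have h7 : (4 : K) = 0 := by linear_combination h6 - h5
    norm_num at h7
  · rw [← h v]
    exact lift_mk hι lz7 (7, v)

theorem rho_z7_pow (hι : ι ^ 2 = -1) (k : ℕ) (hk : 0 < k) :
    rho (K := K) hι (z7 ^ k) (7, 0) ≠ (7, 0) := by
  obtain ⟨t, ht, h⟩ := rho_z7 (K := K) hι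
  have key : ∀ k : ℕ, rho hι (z7 ^ k) (7, 0) = (7, (k : K) • t) := by
    intro k
    induction k with
    | zero => simp
    | succ k ih =>
      rw [pow_succ', map_mul, Equiv.Perm.mul_apply, ih, h]
      refine Prod.ext rfl ?_
      change (k : K) • t + t = ((k + 1 : ℕ) : K) • t
      push_cast
      rw [add_smul, one_smul]
  rw [key]
  intro h0
  have h1 : (k : K) • t = 0 := congrArg Prod.snd h0
  rcases smul_eq_zero.1 h1 with h2 | h2
  · exact hk.ne' (by exact_mod_cast h2)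
  · exact ht h2

end

end Pool.Agent.H.MP_ee9c6f_al.G3X
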