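import Mathlib

/-!
MP_ee9c6f_al, genus 3, exact value (helper63). The links are connected.
-/

set_option autoImplicit false

namespace Pool.Agent.H.MP_ee9c6f_al.G3X

section

variable {G : Type*} [Group G]

/-- `x` and `y` are neighbours in the Cayley graph of `S`. -/
def Adj (S : Set G) (x y : G) : Prop := ∃ s ∈ S, y = x * s ∨ x = y * s

theorem Adj.symm {S : Set G} {x y : G} (h : Adj S x y) : Adj S y x := by
  obtain ⟨s, hs, h | h⟩ := h
  · exact ⟨s, hs, Or.inr h⟩
  · exact ⟨s, hs, Or.inl h⟩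

/-- one step inside `A` -/
def Stp (S A : Set G) (x y : G) : Prop := x ∈ A ∧ y ∈ A ∧ Adj S x y

/-- `x` and `y` are connected inside `A`. -/
def Con (S A : Set G) : G → G → Prop := Relation.ReflTransGen (Stp S A)

theorem Con.refl {S A : Set G} (x : G) : Con S A x x := Relation.ReflTransGen.refl

theorem Con.trans {S A : Set G} {x y z : G} (h : Con S A x y) (h' : Con S A y z) : Con S A x z :=
  Relation.ReflTransGen.trans h h'

theorem Stp.symm {S A : Set G} {x y : G} (h : Stp S A x y) : Stp S A y x :=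
  ⟨h.2.1, h.1, h.2.2.symm⟩

theorem Con.symm {S A : Set G} {x y : G} (h : Con S A x y) : Con S A y x := by
  induction h with
  | refl => exact Con.refl _
  | tail _ h ih => exact Relation.ReflTransGen.head h.symm ih

theorem Con.mono {S A A' : Set G} (hA : A ⊆ A') {x y : G} (h : Con S A x y) : Con S A' x y := by
  induction h with
  | refl => exact Con.refl _
  | tail _ h ih => exact Relation.ReflTransGen.tail ih ⟨hA h.1, hA h.2.1, h.2.2⟩

theorem Con.single {S A : Set G} {x y : G} (hx : x ∈ A) (hy : y ∈ A) (h : Adj S x y) :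
    Con S A x y := Relation.ReflTransGen.single ⟨hx, hy, h⟩

end

open Complex

/-- The data: `K` is generated by `SC` (elements which commute with `t`) and `SB` (elements which
satisfy the braid relation with `t`) and preserves the height; `X g` is the complex displacement of
`g t`, so that `g t` is higher than `g` by `Re (X g)` and `g t⁻¹` by `Re (i X g)`. -/
structure LD {G : Type*} [Group G] (SC SB : Set G) (t a b : G) (h : G → ℝ)
    (X R : G → ℂ) : Prop where
  comm : ∀ s ∈ SC, s * t = t * s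
  braid : ∀ s ∈ SB, s * t * s = t * s * t
  aC : a ∈ SC
  bB : b ∈ SB
  ab : a * b * a = b * a * b
  zc : ∀ s ∈ SC ∪ SB, s * (a * b) ^ 3 = (a * b) ^ 3 * s
  hs : ∀ g, ∀ s ∈ SC ∪ SB, h (g * s) = h g
  ht : ∀ g, h (g * t) = h g + (X g).re
  ht' : ∀ g, h (g * t⁻¹) = h g - (X g).im
  Xa : ∀ g, X (g * a) = X g
  Ra : ∀ g, R (g * a) = I * R g
  Xb : ∀ g, X (g * b) = (1 + I) / 2 * X g + R g
  Rb : ∀ g, R (g * b) = -(I / 2) * X g + (1 + I) / 2 * R g
  gen : ∀ g, (X g).re ≠ 0

/-- the quadrant -/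
noncomputable def qd (z : ℂ) : ℤ :=
  if 0 < z.re then (if z.im < 0 then 0 else 1) else (if 0 < z.im then 2 else 3)

theorem qd_cases {z : ℂ} (hr : z.re ≠ 0) (hi : z.im ≠ 0) :
    (qd z = 0 ∧ 0 < z.re ∧ z.im < 0) ∨ (qd z = 1 ∧ 0 < z.re ∧ 0 < z.im) ∨
      (qd z = 2 ∧ z.re < 0 ∧ 0 < z.im) ∨ (qd z = 3 ∧ z.re < 0 ∧ z.im < 0) := by
  unfold qd
  rcases lt_or_gt_of_ne hr with h1 | h1 <;> rcases lt_or_gt_of_ne hi with h2 | h2
  · simp [h1, h2, not_lt.2 h1.le, not_lt.2 h2.le]
  · simp [h1, h2, not_lt.2 h1.le]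
  · simp [h1, h2]
  · simp [h1, h2, not_lt.2 h2.le]

theorem qd_I {z : ℂ} (hr : z.re ≠ 0) (hi : z.im ≠ 0) : (qd (I * z) - qd z - 1) % 4 = 0 := by
  have e1 : (I * z).re = -z.im := by simp
  have e2 : (I * z).im = z.re := by simp
  have h1 := qd_cases hr hi
  have h2 := qd_cases (z := I * z) (by rw [e1]; simpa using hi) (by rw [e2]; exact hr)
  rw [e1, e2] at h2
  rcases h1 with ⟨a, b, c⟩ | ⟨a, b, c⟩ | ⟨a, b, c⟩ | ⟨a, b, c⟩ <;>
    rcases h2 with ⟨a', b', c'⟩ | ⟨a', b', c'⟩ | ⟨a', b', c'⟩ | ⟨a', b', c'⟩ <;>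
    first
    | (rw [a, a']; norm_num; done)
    | (exfalso; linarith)

namespace LD

variable {G : Type*} [Group G] {SC SB : Set G} {t a b : G} {h : G → ℝ} {X R : G → ℂ}

/-- the vertices above a level -/
def Al (h : G → ℝ) (c : ℝ) : Set G := {z | c < h z}

theorem hK (L : LD SC SB t a b h X R) {k : G} (hk : k ∈ Subgroup.closure (SC ∪ SB)) (g : G) :
    h (g * k) = h g := by
  induction hk using Subgroup.closure_induction generalizing g with
  | mem s hs => exact L.hs g s hs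
  | one => rw [mul_one]
  | mul x y _ _ hx hy => rw [← mul_assoc, hy, hx]
  | inv x _ hx =>
    have := hx (g * x⁻¹)
    rw [mul_assoc, inv_mul_cancel, mul_one] at this
    exact this.symm

/-- connected above the level -/
def P (SC SB : Set G) (t : G) (h : G → ℝ) (c : ℝ) : G → G → Prop :=
  Con (SC ∪ SB ∪ {t}) (Al h c)

theorem conK (L : LD SC SB t a b h X R) {c : ℝ} {k : G}
    (hk : k ∈ Subgroup.closure (SC ∪ SB)) {x : G} (hx : x ∈ Al h c) :
    P SC SB t h c x (x * k) := by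
  have key : ∀ k ∈ Subgroup.closure (SC ∪ SB), ∀ x : G, x * k ∈ Al h c ↔ x ∈ Al h c := by
    intro k hk x
    unfold Al
    rw [Set.mem_ofPred_eq, Set.mem_ofPred_eq, L.hK hk]
  induction hk using Subgroup.closure_induction generalizing x with
  | mem s hs =>
    exact Con.single hx ((key s (Subgroup.subset_closure hs) x).2 hx) ⟨s, Or.inl hs, Or.inl rfl⟩
  | one => rw [mul_one]; exact Con.refl _
  | mul u v hu hv ihu ihv =>
    rw [← mul_assoc]
    exact (ihu hx).trans (ihv ((key u hu x).2 hx))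
  | inv u hu ihu =>
    have h1 : x * u⁻¹ ∈ Al h c := (key _ (Subgroup.inv_mem _ hu) x).2 hx
    have h2 := ihu h1
    rw [mul_assoc, inv_mul_cancel, mul_one] at h2
    exact h2.symm

theorem alK (L : LD SC SB t a b h X R) {c : ℝ} {k : G}
    (hk : k ∈ Subgroup.closure (SC ∪ SB)) {x : G} : x * k ∈ Al h c ↔ x ∈ Al h c := by
  unfold Al
  rw [Set.mem_ofPred_eq, Set.mem_ofPred_eq, L.hK hk]

theorem M0 (L : LD SC SB t a b h X R) {c : ℝ} {s : G} (hs : s ∈ SC) {x : G}
    (hx : x * t ∈ Al h c) : P SC SB t h c (x * t) (x * s * t) := by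
  have e : x * s * t = x * t * s := by rw [mul_assoc, L.comm s hs, ← mul_assoc]
  rw [e]
  exact L.conK (Subgroup.subset_closure (Or.inl hs)) hx

theorem M0' (L : LD SC SB t a b h X R) {c : ℝ} {s : G} (hs : s ∈ SC) {x : G}
    (hx : x * t⁻¹ ∈ Al h c) : P SC SB t h c (x * t⁻¹) (x * s * t⁻¹) := by
  have e : x * s * t⁻¹ = x * t⁻¹ * s := by
    have h1 : s * t⁻¹ = t⁻¹ * s := by
      have := L.comm s hs
      rw [mul_inv_eq_iff_eq_mul, mul_assoc, this, inv_mul_cancel_left]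
    rw [mul_assoc, h1, ← mul_assoc]
  rw [e]
  exact L.conK (Subgroup.subset_closure (Or.inl hs)) hx

theorem M1 (L : LD SC SB t a b h X R) {c : ℝ} {s : G} (hs : s ∈ SB) {x : G}
    (hx : x * t ∈ Al h c) (hy : x * s * t ∈ Al h c) :
    P SC SB t h c (x * t) (x * s * t) := by
  have hk : s ∈ Subgroup.closure (SC ∪ SB) := Subgroup.subset_closure (Or.inr hs)
  have e : x * t * s * t = x * s * t * s := by
    have := L.braid s hs
    calc x * t * s * t = x * (t * s * t) := by group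
      _ = x * (s * t * s) := by rw [this]
      _ = _ := by group
  have h1 := L.conK hk hx
  have h2 := L.conK hk hy
  refine h1.trans (Con.trans (Con.single ((L.alK hk).2 hx) ?_ ⟨t, Or.inr rfl, Or.inl rfl⟩) ?_)
  · rw [e]
    exact (L.alK hk).2 hy
  · rw [e]
    exact h2.symm

theorem M1' (L : LD SC SB t a b h X R) {c : ℝ} {s : G} (hs : s ∈ SB) {x : G}
    (hx : x * t⁻¹ ∈ Al h c) (hy : x * s * t⁻¹ ∈ Al h c) :
    P SC SB t h c (x * t⁻¹) (x * s * t⁻¹) := by
  have hk : s⁻¹ ∈ Subgroup.closure (SC ∪ SB) :=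
    Subgroup.inv_mem _ (Subgroup.subset_closure (Or.inr hs))
  have e : x * s * t⁻¹ * s⁻¹ * t⁻¹ = x * t⁻¹ * s⁻¹ := by
    have := L.braid s hs
    calc x * s * t⁻¹ * s⁻¹ * t⁻¹ = x * s * (t * s * t)⁻¹ := by group
      _ = x * s * (s * t * s)⁻¹ := by rw [this]
      _ = _ := by group
  have h1 := L.conK hk hx
  have h2 := L.conK hk hy
  have h3 : P SC SB t h c (x * s * t⁻¹ * s⁻¹) (x * s * t⁻¹ * s⁻¹ * t⁻¹) := by
    refine Con.single ((L.alK hk).2 hy) ?_ ⟨t, Or.inr rfl, Or.inr (by group)⟩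
    rw [e]
    exact (L.alK hk).2 hx
  rw [e] at h3
  exact (h2.trans (h3.trans h1.symm)).symm

theorem M2 (L : LD SC SB t a b h X R) {c : ℝ} {s : G} (hs : s ∈ SB) {x : G}
    (hx : x * t⁻¹ ∈ Al h c) (hy : x * s * t ∈ Al h c) :
    P SC SB t h c (x * t⁻¹) (x * s * t) := by
  have hk : s ∈ Subgroup.closure (SC ∪ SB) := Subgroup.subset_closure (Or.inr hs)
  have e : x * t⁻¹ * s * t = x * s * t * s⁻¹ := by
    have := L.braid s hs
    have h1 : t⁻¹ * s * t = s * t * s⁻¹ := by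
      rw [eq_mul_inv_iff_mul_eq]
      calc t⁻¹ * s * t * s = t⁻¹ * (s * t * s) := by group
        _ = t⁻¹ * (t * s * t) := by rw [this]
        _ = _ := by group
    calc x * t⁻¹ * s * t = x * (t⁻¹ * s * t) := by group
      _ = x * (s * t * s⁻¹) := by rw [h1]
      _ = _ := by group
  have h1 := L.conK hk hx
  have h2 := L.conK (Subgroup.inv_mem _ hk) hy
  refine h1.trans (Con.trans (Con.single ((L.alK hk).2 hx) ?_ ⟨t, Or.inr rfl, Or.inl rfl⟩) ?_)
  · rw [e]
    exact (L.alK (Subgroup.inv_mem _ hk)).2 hy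
  · rw [e]
    exact h2.symm

/-! ### the central element -/

theorem zK (L : LD SC SB t a b h X R) : (a * b) ^ 3 ∈ Subgroup.closure (SC ∪ SB) := by
  have ha : a ∈ Subgroup.closure (SC ∪ SB) := Subgroup.subset_closure (Or.inl L.aC)
  have hb : b ∈ Subgroup.closure (SC ∪ SB) := Subgroup.subset_closure (Or.inr L.bB)
  exact Subgroup.pow_mem _ (Subgroup.mul_mem _ ha hb) 3

theorem zeta_eq (L : LD SC SB t a b h X R) : a * a * b * a * a * b = (a * b) ^ 3 := by
  have h1 := L.ab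
  have e : (a * b) ^ 3 = a * (b * a * b) * a * b := by
    rw [pow_succ, pow_succ, pow_one]
    simp only [mul_assoc]
  rw [e, ← h1]
  simp only [mul_assoc]

theorem XZ (L : LD SC SB t a b h X R) (g : G) : X (g * (a * b) ^ 3) = I * X g := by
  rw [← L.zeta_eq]
  simp only [← mul_assoc]
  simp only [L.Xa, L.Ra, L.Xb, L.Rb]
  have hI : I * I = -1 := I_mul_I
  linear_combination (X g * (1 / 4 - I / 2) + R g * ((1 + I) / 2) * I ^ 2) * hI

theorem im_ne (L : LD SC SB t a b h X R) (g : G) : (X g).im ≠ 0 := by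
  have := L.gen (g * (a * b) ^ 3)
  rw [L.XZ] at this
  simpa using this

theorem XZi (L : LD SC SB t a b h X R) (g : G) : X (g * ((a * b) ^ 3)⁻¹) = -I * X g := by
  have := L.XZ (g * ((a * b) ^ 3)⁻¹)
  rw [mul_assoc, inv_mul_cancel, mul_one] at this
  rw [this, ← mul_assoc, neg_mul, I_mul_I]
  ring

theorem Xs (L : LD SC SB t a b h X R) {s : G} (hs : s ∈ SC) (g : G) : X (g * s) = X g := by
  have hc := L.comm s hs
  have h0 := L.hs g s (Or.inl hs)
  apply Complex.ext
  · have e : g * s * t = g * t * s := by rw [mul_assoc, hc, ← mul_assoc]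
    have h1 := L.ht (g * s)
    rw [e, L.hs _ s (Or.inl hs), h0, L.ht] at h1
    linarith
  · have e : g * s * t⁻¹ = g * t⁻¹ * s := by
      have h1 : s * t⁻¹ = t⁻¹ * s := by
        rw [mul_inv_eq_iff_eq_mul, mul_assoc, hc, inv_mul_cancel_left]
      rw [mul_assoc, h1, ← mul_assoc]
    have h1 := L.ht' (g * s)
    rw [e, L.hs _ s (Or.inl hs), h0, L.ht'] at h1
    linarith

theorem mem_t (L : LD SC SB t a b h X R) {g : G} {c : ℝ} (hc : h g = c) (hg : 0 < (X g).re) :
    g * t ∈ Al h c := by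
  have h1 := L.ht g
  change c < h (g * t)
  linarith

theorem mem_ti (L : LD SC SB t a b h X R) {g : G} {c : ℝ} (hc : h g = c)
    (hg : (X g).im < 0) : g * t⁻¹ ∈ Al h c := by
  have h1 := L.ht' g
  change c < h (g * t⁻¹)
  linarith

theorem c1abs {a b : G} {Q : G → G → Prop}
    (htr : ∀ x y z, Q x y → Q y z → Q x z) {U : G → Prop} {v : G → G} (ua : ∀ x, U (x * a) ↔ U x)
    (m0 : ∀ x, U x → Q (v x) (v (x * a))) (m1 : ∀ x, U x → U (x * b) → Q (v x) (v (x * b))) {ζ : G}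
    (hz : a * a * b * a * a * b = ζ) (hza : a * ζ = ζ * a) (y : G) (h1 : U y) (h2 : U (y * ζ))
    (h3 : U (y * b) ∨ U (y * a * a * b)) : Q (v y) (v (y * ζ)) := by
  rcases h3 with h3 | h3
  · have hz' : b * a * a * b * a * a = ζ := by
      have e : a * a * (b * a * a * b * a * a) = a * a * ζ := by
        calc a * a * (b * a * a * b * a * a) = (a * a * b * a * a * b) * a * a := by group
          _ = ζ * a * a := by rw [hz]
          _ = a * ζ * a := by rw [hza]
          _ = a * (ζ * a) := by group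
          _ = a * (a * ζ) := by rw [hza]
          _ = _ := by group
      exact mul_left_cancel e
    have e : y * ζ = y * b * a * a * b * a * a := by
      rw [← hz']
      simp only [mul_assoc]
    rw [e] at h2 ⊢
    have u1 : U (y * b * a) := (ua _).2 h3
    have u2 : U (y * b * a * a) := (ua _).2 u1
    have u4 : U (y * b * a * a * b * a) := (ua _).1 h2
    have u3 : U (y * b * a * a * b) := (ua _).1 u4
    exact htr _ _ _ (m1 y h1 h3) (htr _ _ _ (m0 _ h3) (htr _ _ _ (m0 _ u1) (htr _ _ _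
      (m1 _ u2 u3) (htr _ _ _ (m0 _ u3) (m0 _ u4)))))
  · have e : y * ζ = y * a * a * b * a * a * b := by
      rw [← hz]
      simp only [mul_assoc]
    rw [e] at h2 ⊢
    have u1 : U (y * a) := (ua _).2 h1
    have u2 : U (y * a * a) := (ua _).2 u1
    have u3 : U (y * a * a * b * a) := (ua _).2 h3
    have u4 : U (y * a * a * b * a * a) := (ua _).2 u3
    exact htr _ _ _ (m0 y h1) (htr _ _ _ (m0 _ u1) (htr _ _ _ (m1 _ u2 h3) (htr _ _ _
      (m0 _ h3) (htr _ _ _ (m0 _ u3) (m1 _ u4 h2)))))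

theorem sumY (L : LD SC SB t a b h X R) (y : G) : X (y * b) + X (y * a * a * b) =
    (1 + I) * X y := by
  simp only [L.Xa, L.Ra, L.Xb]
  linear_combination R y * I_mul_I

/-- the central element, upper version -/
theorem C1 (L : LD SC SB t a b h X R) {c : ℝ} {y : G} (hc : h y = c) (h1 : 0 < (X y).re)
    (h2 : (X y).im < 0) : P SC SB t h c (y * t) (y * (a * b) ^ 3 * t) := by
  refine c1abs (a := a) (b := b) (Q := P SC SB t h c)
    (fun x y z h h' => Con.trans h h') (U := fun x => h x = c ∧ 0 < (X x).re)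
    (v := fun x => x * t) ?_ ?_ ?_ L.zeta_eq (L.zc a (Or.inl L.aC)) y ⟨hc, h1⟩ ?_ ?_
  · intro x
    rw [L.hs x a (Or.inl L.aC), L.Xa]
  · intro x hx
    exact L.M0 L.aC (L.mem_t hx.1 hx.2)
  · intro x hx hy
    exact L.M1 L.bB (L.mem_t hx.1 hx.2) (L.mem_t hy.1 hy.2)
  · refine ⟨by rw [L.hK L.zK]; exact hc, ?_⟩
    rw [L.XZ]
    simpa using h2
  · have e := L.sumY y
    have e1 : (X (y * b)).re + (X (y * a * a * b)).re = (X y).re - (X y).im := by
      rw [← Complex.add_re, e]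
      simp
    rcases lt_or_ge 0 (X (y * b)).re with h3 | h3
    · exact Or.inl ⟨by rw [L.hs y b (Or.inr L.bB)]; exact hc, h3⟩
    · refine Or.inr ⟨?_, by linarith⟩
      rw [L.hs _ b (Or.inr L.bB), L.hs _ a (Or.inl L.aC), L.hs _ a (Or.inl L.aC)]
      exact hc

/-- the central element, lower version -/
theorem C1' (L : LD SC SB t a b h X R) {c : ℝ} {y : G} (hc : h y = c) (h1 : (X y).re < 0)
    (h2 : (X y).im < 0) : P SC SB t h c (y * t⁻¹) (y * (a * b) ^ 3 * t⁻¹) := by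
  refine c1abs (a := a) (b := b) (Q := P SC SB t h c)
    (fun x y z h h' => Con.trans h h') (U := fun x => h x = c ∧ (X x).im < 0)
    (v := fun x => x * t⁻¹) ?_ ?_ ?_ L.zeta_eq (L.zc a (Or.inl L.aC)) y ⟨hc, h2⟩ ?_ ?_
  · intro x
    rw [L.hs x a (Or.inl L.aC), L.Xa]
  · intro x hx
    exact L.M0' L.aC (L.mem_ti hx.1 hx.2)
  · intro x hx hy
    exact L.M1' L.bB (L.mem_ti hx.1 hx.2) (L.mem_ti hy.1 hy.2)
  · refine ⟨by rw [L.hK L.zK]; exact hc, ?_⟩
    rw [L.XZ]
    simpa using h1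
  · have e := L.sumY y
    have e1 : (X (y * b)).im + (X (y * a * a * b)).im = (X y).im + (X y).re := by
      rw [← Complex.add_im, e]
      simp
    rcases lt_or_ge (X (y * b)).im 0 with h3 | h3
    · exact Or.inl ⟨by rw [L.hs y b (Or.inr L.bB)]; exact hc, h3⟩
    · refine Or.inr ⟨?_, by linarith⟩
      rw [L.hs _ b (Or.inr L.bB), L.hs _ a (Or.inl L.aC), L.hs _ a (Or.inl L.aC)]
      exact hc

/-- lower and upper vertices -/
theorem C2 (L : LD SC SB t a b h X R) {c : ℝ} {y : G} (hc : h y = c) (h1 : 0 < (X y).re)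
    (h2 : (X y).im < 0) : P SC SB t h c (y * t⁻¹) (y * t) := by
  have e := L.sumY y
  have e1 : (X (y * b)).re + (X (y * a * a * b)).re = (X y).re - (X y).im := by
    rw [← Complex.add_re, e]
    simp
  have hb := L.hs y b (Or.inr L.bB)
  rcases lt_or_ge 0 (X (y * b)).re with h3 | h3
  · have m1 := L.mem_ti hc h2
    have m2 : y * b * t ∈ Al h c := L.mem_t (hb.trans hc) h3
    exact (L.M2 L.bB m1 m2).trans (L.M1 L.bB (L.mem_t hc h1) m2).symm
  · have h4 : 0 < (X (y * a * a * b)).re := by linarith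
    have ha1 : h (y * a) = c := by rw [L.hs _ a (Or.inl L.aC)]; exact hc
    have ha2 : h (y * a * a) = c := by rw [L.hs _ a (Or.inl L.aC)]; exact ha1
    have hb2 : h (y * a * a * b) = c := by rw [L.hs _ b (Or.inr L.bB)]; exact ha2
    have x1 : X (y * a) = X y := L.Xa y
    have x2 : X (y * a * a) = X y := by rw [L.Xa, L.Xa]
    have m0 := L.mem_ti hc h2
    have m0' := L.mem_ti ha1 (x1 ▸ h2)
    have m0'' := L.mem_ti ha2 (x2 ▸ h2)
    have n0 := L.mem_t hc h1
    have n0' := L.mem_t ha1 (x1 ▸ h1)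
    have n0'' := L.mem_t ha2 (x2 ▸ h1)
    have m2 := L.mem_t hb2 h4
    exact (L.M0' L.aC m0).trans ((L.M0' L.aC m0').trans ((L.M2 L.bB m0'' m2).trans
      ((L.M1 L.bB n0'' m2).symm.trans ((L.M0 L.aC n0').symm.trans (L.M0 L.aC n0).symm))))

/-! ### quadrants -/

theorem qI (L : LD SC SB t a b h X R) (g : G) :
    (qd (X (g * (a * b) ^ 3)) - qd (X g) - 1) % 4 = 0 := by
  rw [L.XZ]
  exact qd_I (L.gen g) (L.im_ne g)

theorem zpK (L : LD SC SB t a b h X R) (n : ℤ) :
    ((a * b) ^ 3) ^ n ∈ Subgroup.closure (SC ∪ SB) := Subgroup.zpow_mem _ L.zK n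

theorem qn (L : LD SC SB t a b h X R) (g : G) (n : ℤ) :
    (qd (X (g * ((a * b) ^ 3) ^ n)) - qd (X g) - n) % 4 = 0 := by
  induction n using Int.induction_on with
  | zero => simp
  | succ i ih =>
    have h1 := L.qI (g * ((a * b) ^ 3) ^ (i : ℤ))
    rw [mul_assoc, ← zpow_add_one] at h1
    omega
  | pred i ih =>
    have h1 := L.qI (g * ((a * b) ^ 3) ^ (-(i : ℤ) - 1))
    rw [mul_assoc, ← zpow_add_one, sub_add_cancel] at h1
    omega

theorem q_range (L : LD SC SB t a b h X R) (g : G) : 0 ≤ qd (X g) ∧ qd (X g) ≤ 3 := by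
  rcases qd_cases (L.gen g) (L.im_ne g) with ⟨h, -⟩ | ⟨h, -⟩ | ⟨h, -⟩ | ⟨h, -⟩ <;> rw [h] <;> norm_num

theorem q0 (L : LD SC SB t a b h X R) {g : G} (hg : qd (X g) % 4 = 0) :
    0 < (X g).re ∧ (X g).im < 0 := by
  rcases qd_cases (L.gen g) (L.im_ne g) with ⟨h, h'⟩ | ⟨h, h'⟩ | ⟨h, h'⟩ | ⟨h, h'⟩
  · exact h'
  all_goals exfalso; omega

theorem q1 (L : LD SC SB t a b h X R) {g : G} (hg : qd (X g) % 4 = 1) :
    0 < (X g).re ∧ 0 < (X g).im := by
  rcases qd_cases (L.gen g) (L.im_ne g) with ⟨h, h'⟩ | ⟨h, h'⟩ | ⟨h, h'⟩ | ⟨h, h'⟩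
  · exfalso; omega
  · exact h'
  all_goals exfalso; omega

theorem q2 (L : LD SC SB t a b h X R) {g : G} (hg : qd (X g) % 4 = 2) :
    (X g).re < 0 ∧ 0 < (X g).im := by
  rcases qd_cases (L.gen g) (L.im_ne g) with ⟨h, h'⟩ | ⟨h, h'⟩ | ⟨h, h'⟩ | ⟨h, h'⟩
  · exfalso; omega
  · exfalso; omega
  · exact h'
  · exfalso; omega

theorem q3 (L : LD SC SB t a b h X R) {g : G} (hg : qd (X g) % 4 = 3) :
    (X g).re < 0 ∧ (X g).im < 0 := by
  rcases qd_cases (L.gen g) (L.im_ne g) with ⟨h, h'⟩ | ⟨h, h'⟩ | ⟨h, h'⟩ | ⟨h, h'⟩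
  · exfalso; omega
  · exfalso; omega
  · exfalso; omega
  · exact h'

/-- the vertex with the lift `m` -/
def V (a b t : G) (x : G) (m : ℤ) : G := x * ((a * b) ^ 3) ^ (-m) * t

theorem edgeC (L : LD SC SB t a b h X R) {c : ℝ} {s : G} (hs : s ∈ SC) {x : G} (hc : h x = c)
    {m : ℤ} (hm : (qd (X x) - m) % 4 = 0) :
    P SC SB t h c (V a b t x m) (V a b t (x * s) m) := by
  have hsz : Commute s ((a * b) ^ 3) := L.zc s (Or.inl hs)
  have e := (hsz.zpow_right (-m)).eq
  have e1 : x * s * ((a * b) ^ 3) ^ (-m) * t = x * ((a * b) ^ 3) ^ (-m) * s * t := by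
    rw [mul_assoc x, e, ← mul_assoc]
  unfold V
  rw [e1]
  have h1 := L.qn x (-m)
  obtain ⟨h2, -⟩ := L.q0 (g := x * ((a * b) ^ 3) ^ (-m)) (by omega)
  exact L.M0 hs (L.mem_t (by rw [L.hK (L.zpK _)]; exact hc) h2)

theorem edge (L : LD SC SB t a b h X R) {c : ℝ} {s : G} (hs : s ∈ SB) {x : G} (hc : h x = c)
    {m m' : ℤ} (hm : (qd (X x) - m) % 4 = 0) (hm' : (qd (X (x * s)) - m') % 4 = 0)
    (h1 : -1 ≤ m' - m) (h2 : m' - m ≤ 2) :
    P SC SB t h c (V a b t x m) (V a b t (x * s) m') := by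
  have hsz : Commute s ((a * b) ^ 3) := L.zc s (Or.inr hs)
  obtain ⟨y, hy⟩ : ∃ y, y = x * ((a * b) ^ 3) ^ (-m) := ⟨_, rfl⟩
  have hyc : h y = c := by rw [hy, L.hK (L.zpK _)]; exact hc
  have ys : y * s = x * s * ((a * b) ^ 3) ^ (-m) := by
    rw [hy, mul_assoc, mul_assoc, (hsz.zpow_right (-m)).eq]
  have e0 := L.qn x (-m)
  rw [← hy] at e0
  have e1 := L.qn (x * s) (-m)
  rw [← ys] at e1
  obtain ⟨y1, y2⟩ := L.q0 (g := y) (by omega)
  have hV : V a b t x m = y * t := by rw [hy]; rfl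
  have hV' : ∀ k : ℤ, m' = m + k → V a b t (x * s) m' = y * s * ((a * b) ^ 3) ^ (-k) * t := by
    intro k hk
    unfold V
    rw [hk, ys, neg_add, zpow_add]
    simp only [mul_assoc]
  have hsc : h (y * s) = c := by rw [L.hs _ s (Or.inr hs)]; exact hyc
  have hcases : m' = m + (-1) ∨ m' = m + 0 ∨ m' = m + 1 ∨ m' = m + 2 := by omega
  rw [hV]
  rcases hcases with hk | hk | hk | hk
  · rw [hV' _ hk, neg_neg, zpow_one]
    obtain ⟨z1, z2⟩ := L.q3 (g := y * s) (by omega)
    have a1 := L.C1 hyc y1 y2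
    have e2 : y * s * (a * b) ^ 3 * t = y * (a * b) ^ 3 * s * t := by
      rw [mul_assoc y, hsz.eq, ← mul_assoc]
    rw [e2]
    have hzc : h (y * (a * b) ^ 3) = c := by rw [L.hK L.zK]; exact hyc
    have hzc' : h (y * (a * b) ^ 3 * s) = c := by rw [L.hs _ s (Or.inr hs)]; exact hzc
    refine a1.trans (L.M1 hs (L.mem_t hzc ?_) (L.mem_t hzc' ?_))
    · rw [L.XZ]
      simpa using y2
    · have e3 : y * (a * b) ^ 3 * s = y * s * (a * b) ^ 3 := by
        rw [mul_assoc y s, hsz.eq, ← mul_assoc]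
      rw [e3, L.XZ]
      simpa using z2
  · rw [hV' _ hk, neg_zero, zpow_zero, mul_one]
    obtain ⟨z1, z2⟩ := L.q0 (g := y * s) (by omega)
    exact L.M1 hs (L.mem_t hyc y1) (L.mem_t hsc z1)
  · rw [hV' _ hk, zpow_neg_one]
    obtain ⟨z1, z2⟩ := L.q1 (g := y * s) (by omega)
    have a1 := L.C1 (y := y * s * ((a * b) ^ 3)⁻¹) (c := c)
      (by rw [L.hK (Subgroup.inv_mem _ L.zK)]; exact hsc)
      (by rw [L.XZi]; simpa using z2) (by rw [L.XZi]; simpa using z1)
    rw [inv_mul_cancel_right] at a1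
    exact (L.M1 hs (L.mem_t hyc y1) (L.mem_t hsc z1)).trans a1.symm
  · have e2 : y * s * ((a * b) ^ 3) ^ (-2 : ℤ) * t =
        y * s * ((a * b) ^ 3)⁻¹ * ((a * b) ^ 3)⁻¹ * t := by
      have : ((a * b) ^ 3) ^ (-2 : ℤ) = ((a * b) ^ 3)⁻¹ * ((a * b) ^ 3)⁻¹ := by
        rw [show (-2 : ℤ) = -1 + -1 by norm_num, zpow_add, zpow_neg_one]
      rw [this]
      simp only [mul_assoc]
    rw [hV' _ hk, e2]
    obtain ⟨z1, z2⟩ := L.q2 (g := y * s) (by omega)
    have hic : h (y * ((a * b) ^ 3)⁻¹) = c := by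
      rw [L.hK (Subgroup.inv_mem _ L.zK)]; exact hyc
    have hic' : h (y * s * ((a * b) ^ 3)⁻¹) = c := by
      rw [L.hK (Subgroup.inv_mem _ L.zK)]; exact hsc
    have hic'' : h (y * s * ((a * b) ^ 3)⁻¹ * ((a * b) ^ 3)⁻¹) = c := by
      rw [L.hK (Subgroup.inv_mem _ L.zK)]; exact hic'
    have e3 : y * ((a * b) ^ 3)⁻¹ * s = y * s * ((a * b) ^ 3)⁻¹ := by
      rw [mul_assoc, mul_assoc, hsz.inv_right.eq]
    have x1 : (X (y * ((a * b) ^ 3)⁻¹)).re < 0 := by rw [L.XZi]; simpa using y2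
    have x2 : (X (y * ((a * b) ^ 3)⁻¹)).im < 0 := by rw [L.XZi]; simpa using y1
    have x3 : 0 < (X (y * s * ((a * b) ^ 3)⁻¹)).re := by rw [L.XZi]; simpa using z2
    have x4 : 0 < (X (y * s * ((a * b) ^ 3)⁻¹)).im := by rw [L.XZi]; simpa using z1
    have p1 := L.C2 hyc y1 y2
    have p2 := L.C1' hic x1 x2
    rw [inv_mul_cancel_right] at p2
    have p3 := L.M2 hs (x := y * ((a * b) ^ 3)⁻¹) (c := c) (L.mem_ti hic x2)
      (by rw [e3]; exact L.mem_t hic' x3)
    rw [e3] at p3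
    have p4 := L.C1 hic'' (by rw [L.XZi]; simpa using x4) (by rw [L.XZi]; simpa using x3)
    rw [inv_mul_cancel_right] at p4
    exact p1.symm.trans (p2.symm.trans (p3.trans p4.symm))

/-! ### periods -/

/-- a vertex is connected with the next period -/
def Per (SC SB : Set G) (t a b : G) (h : G → ℝ) (X : G → ℂ) (c : ℝ) (x : G) : Prop :=
  ∀ m : ℤ, (qd (X x) - m) % 4 = 0 → P SC SB t h c (V a b t x m) (V a b t x (m + 4))

theorem per_edge (L : LD SC SB t a b h X R) {c : ℝ} {s : G} (hs : s ∈ SB) {x : G} (hc : h x = c)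
    (hp : Per SC SB t a b h X c (x * s)) : Per SC SB t a b h X c x := by
  intro m hm
  have e1 := L.edge hs hc (m := m) (m' := m + ((qd (X (x * s)) - m + 1) % 4 - 1)) hm (by omega)
    (by omega) (by omega)
  have e2 := L.edge hs hc (m := m + 4) (m' := m + ((qd (X (x * s)) - m + 1) % 4 - 1) + 4)
    (by omega) (by omega) (by omega) (by omega)
  exact e1.trans ((hp _ (by omega)).trans e2.symm)

theorem per_edgeC (L : LD SC SB t a b h X R) {c : ℝ} {s : G} (hs : s ∈ SC) {x : G}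
    (hc : h x = c) (hp : Per SC SB t a b h X c (x * s)) : Per SC SB t a b h X c x := by
  intro m hm
  exact (L.edgeC hs hc hm).trans ((hp m (by rw [L.Xs hs]; exact hm)).trans
    (L.edgeC hs hc (m := m + 4) (by omega)).symm)

theorem faceA (L : LD SC SB t a b h X R) {c : ℝ} {x : G} (hc : h x = c) {m m2 : ℤ}
    (hm : (qd (X x) - m) % 4 = 0) (h2 : (qd (X (x * a * b)) - m2) % 4 = 0) (b1 : -1 ≤ m2 - m)
    (b2 : m2 - m ≤ 2) : P SC SB t h c (V a b t x m) (V a b t (x * a * b) m2) :=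
  (L.edgeC L.aC hc hm).trans (L.edge L.bB (by rw [L.hs _ a (Or.inl L.aC)]; exact hc)
    (by rw [L.Xa]; exact hm) h2 b1 b2)

theorem faceB (L : LD SC SB t a b h X R) {c : ℝ} {x : G} (hc : h x = c) {m m1 m3 : ℤ}
    (hm : (qd (X x) - m) % 4 = 0) (h1 : (qd (X (x * b)) - m1) % 4 = 0) (b1 : -1 ≤ m1 - m)
    (b2 : m1 - m ≤ 2) (h3 : (qd (X (x * a * b)) - m3) % 4 = 0) (b3 : -1 ≤ m3 - m1)
    (b4 : m3 - m1 ≤ 2) : P SC SB t h c (V a b t x m) (V a b t (x * a * b) m3) := by
  have hxb : h (x * b) = c := by rw [L.hs _ b (Or.inr L.bB)]; exact hc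
  have hxba : h (x * b * a) = c := by rw [L.hs _ a (Or.inl L.aC)]; exact hxb
  have hxab : h (x * a * b) = c := by
    rw [L.hs _ b (Or.inr L.bB), L.hs _ a (Or.inl L.aC)]; exact hc
  have e : x * b * a * b = x * a * b * a := by
    have := L.ab
    calc x * b * a * b = x * (b * a * b) := by group
      _ = x * (a * b * a) := by rw [this]
      _ = _ := by group
  have s1 := L.edge L.bB hc hm h1 b1 b2
  have s2 := L.edgeC L.aC hxb h1
  have s3 := L.edge L.bB hxba (m := m1) (m' := m3) (by rw [L.Xa]; exact h1)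
    (by rw [e, L.Xa]; exact h3) b3 b4
  rw [e] at s3
  exact s1.trans (s2.trans (s3.trans (L.edgeC L.aC hxab h3).symm))

theorem per_face (L : LD SC SB t a b h X R) {c : ℝ} {x : G} (hc : h x = c)
    (hw : ((qd (X (x * b)) - qd (X x) + 1) % 4 - 1) + ((qd (X (x * a * b)) - qd (X (x * b)) + 1) % 4
      - 1) - ((qd (X (x * a * b)) - qd (X x) + 1) % 4 - 1) ≠ 0) :
    Per SC SB t a b h X c x := by
  intro m hm
  obtain ⟨m1, hm1⟩ : ∃ m1, m1 = m + ((qd (X (x * b)) - m + 1) % 4 - 1) := ⟨_, rfl⟩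
  obtain ⟨m2, hm2⟩ : ∃ m2, m2 = m + ((qd (X (x * a * b)) - m + 1) % 4 - 1) := ⟨_, rfl⟩
  obtain ⟨m3, hm3⟩ : ∃ m3, m3 = m1 + ((qd (X (x * a * b)) - m1 + 1) % 4 - 1) := ⟨_, rfl⟩
  have c1 : (qd (X (x * b)) - m1) % 4 = 0 := by omega
  have c2 : (qd (X (x * a * b)) - m2) % 4 = 0 := by omega
  have c3 : (qd (X (x * a * b)) - m3) % 4 = 0 := by omega
  have A0 := L.faceA hc hm c2 (by omega) (by omega)
  have A4 := L.faceA hc (m := m + 4) (m2 := m2 + 4) (by omega) (by omega) (by omega) (by omega)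
  have B0 := L.faceB hc hm c1 (by omega) (by omega) c3 (by omega) (by omega)
  have B4 := L.faceB hc (m := m + 4) (m1 := m1 + 4) (m3 := m3 + 4) (by omega) (by omega) (by omega)
    (by omega) (by omega) (by omega) (by omega)
  have d1 : m1 - m = (qd (X (x * b)) - qd (X x) + 1) % 4 - 1 := by omega
  have d2 : m2 - m = (qd (X (x * a * b)) - qd (X x) + 1) % 4 - 1 := by omega
  have d3 : m3 - m1 = (qd (X (x * a * b)) - qd (X (x * b)) + 1) % 4 - 1 := by omega
  rw [← d1, ← d2, ← d3] at hw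
  have hcase : m3 = m2 + 4 ∨ m2 = m3 + 4 := by omega
  rcases hcase with hk | hk
  · rw [hk] at B0
    exact B0.trans A4.symm
  · rw [hk] at A0
    exact A0.trans B4.symm

theorem per (L : LD SC SB t a b h X R) {c : ℝ} {x : G} (hc : h x = c) :
    Per SC SB t a b h X c x := by
  by_contra hn
  have na : ∀ y, h y = c → ¬ Per SC SB t a b h X c y → ¬ Per SC SB t a b h X c (y * a) :=
    fun y hy h1 h2 => h1 (L.per_edgeC L.aC hy h2)
  have nb : ∀ y, h y = c → ¬ Per SC SB t a b h X c y → ¬ Per SC SB t a b h X c (y * b) :=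
    fun y hy h1 h2 => h1 (L.per_edge L.bB hy h2)
  have ha : ∀ y, h y = c → h (y * a) = c := fun y hy => by rw [L.hs _ a (Or.inl L.aC)]; exact hy
  have hb : ∀ y, h y = c → h (y * b) = c := fun y hy => by rw [L.hs _ b (Or.inr L.bB)]; exact hy
  -- the sum of the steps around a vertex
  have around : ∀ y, h y = c → ¬ Per SC SB t a b h X c y →
      (qd (X (y * a * b)) - qd (X (y * b)) + 1) % 4 +
      (qd (X (y * a * a * b)) - qd (X (y * a * b)) + 1) % 4 +
      (qd (X (y * a * a * a * b)) - qd (X (y * a * a * b)) + 1) % 4 +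
      (qd (X (y * b)) - qd (X (y * a * a * a * b)) + 1) % 4 = 4 := by
    intro y hy hny
    have y1 := ha y hy
    have y2 := ha _ y1
    have y3 := ha _ y2
    have n1 := na y hy hny
    have n2 := na _ y1 n1
    have n3 := na _ y2 n2
    have w0 := not_not.1 fun hw => hny (L.per_face hy hw)
    have w1 := not_not.1 fun hw => n1 (L.per_face y1 hw)
    have w2 := not_not.1 fun hw => n2 (L.per_face y2 hw)
    have w3 := not_not.1 fun hw => n3 (L.per_face y3 hw)
    have e1 : X (y * a) = X y := L.Xa y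
    have e2 : X (y * a * a) = X y := by rw [L.Xa, L.Xa]
    have e3 : X (y * a * a * a) = X y := by rw [L.Xa, L.Xa, L.Xa]
    have e4 : X (y * a * a * a * a * b) = X (y * b) := by
      simp only [L.Xb, L.Xa, L.Ra]
      linear_combination (R y * (I * I - 1)) * I_mul_I
    rw [e1] at w1
    rw [e2] at w2
    rw [e3, e4] at w3
    linarith
  have s1 := around x hc hn
  have s2 := around (x * b * b) (hb _ (hb _ hc)) (nb _ (hb _ hc) (nb _ hc hn))
  have i2 : I ^ 2 = -1 := I_sq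
  have i3 : I ^ 3 = -I := by rw [pow_succ, i2]; ring
  have i4 : I ^ 4 = 1 := by rw [pow_succ, i3, neg_mul, I_mul_I]; ring
  have i5 : I ^ 5 = I := by rw [pow_succ, i4, one_mul]
  have z0 : I * X (x * b * b * b) = X (x * a * a * b) := by
    simp only [L.Xb, L.Xa, L.Ra, L.Rb]
    linear_combination (-(3 / 8) * X x) * i2 + (-(3 / 8) * X x + 3 / 4 * R x) * i3 +
      (1 / 8 * X x) * i4
  have z1 : X (x * b * b * a * b) = X (x * a * b) := by
    simp only [L.Xb, L.Xa, L.Ra, L.Rb]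
    linear_combination (-(3 / 8) * X x + 1 / 2 * R x) * i2 + (-(3 / 8) * X x + 1 / 4 * R x) * i3
  have z2 : X (x * b * b * a * a * b) = I * X (x * b) := by
    simp only [L.Xb, L.Xa, L.Ra, L.Rb]
    linear_combination (-(3 / 8) * X x + 3 / 4 * R x) * i2 + (-(3 / 8) * X x) * i3 +
      (-(1 / 2) * X x + 1 / 4 * R x) * i4
  have z3 : X (x * b * b * a * a * a * b) = I * (I * X (x * a * a * a * b)) := by
    simp only [L.Xb, L.Xa, L.Ra, L.Rb]
    linear_combination (-(3 / 8) * X x + 1 / 2 * R x) * i2 + (-(3 / 8) * X x + 1 / 4 * R x) * i3 +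
      (-(1 / 2) * X x) * i4 + (-(1 / 2) * X x - 3 / 4 * R x) * i5
  have k0 := qd_I (L.gen (x * b * b * b)) (L.im_ne (x * b * b * b))
  rw [z0] at k0
  have k2 := qd_I (L.gen (x * b)) (L.im_ne (x * b))
  rw [← z2] at k2
  have k3 := qd_I (L.gen (x * a * a * a * b)) (L.im_ne (x * a * a * a * b))
  have k4 := qd_I (z := I * X (x * a * a * a * b)) (by simpa using L.im_ne (x * a * a * a * b))
    (by simpa using L.gen (x * a * a * a * b))
  rw [← z3] at k4
  rw [z1] at s2
  have r1 : (qd (X (x * a * b)) - qd (X (x * b * b * b)) + 1) % 4 =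
      3 - (qd (X (x * a * a * b)) - qd (X (x * a * b)) + 1) % 4 := by omega
  have r2 : (qd (X (x * b * b * a * a * b)) - qd (X (x * a * b)) + 1) % 4 =
      3 - (qd (X (x * a * b)) - qd (X (x * b)) + 1) % 4 := by omega
  have r3 : (qd (X (x * b * b * a * a * a * b)) - qd (X (x * b * b * a * a * b)) + 1) % 4 =
      3 - (qd (X (x * b)) - qd (X (x * a * a * a * b)) + 1) % 4 := by omega
  have r4 : (qd (X (x * b * b * b)) - qd (X (x * b * b * a * a * a * b)) + 1) % 4 =
      3 - (qd (X (x * a * a * a * b)) - qd (X (x * a * a * b)) + 1) % 4 := by omega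
  rw [r1, r2, r3, r4] at s2
  linarith

/-! ### the links are connected -/

theorem lifts (L : LD SC SB t a b h X R) {c : ℝ} {x : G} (hc : h x = c) {m m' : ℤ}
    (hm : (qd (X x) - m) % 4 = 0) (hm' : (qd (X x) - m') % 4 = 0) :
    P SC SB t h c (V a b t x m) (V a b t x m') := by
  have key : ∀ (k : ℕ) (m : ℤ), (qd (X x) - m) % 4 = 0 →
      P SC SB t h c (V a b t x m) (V a b t x (m + 4 * k)) := by
    intro k
    induction k with
    | zero =>
      intro m _
      rw [Nat.cast_zero, mul_zero, add_zero]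
      exact Con.refl _
    | succ k ih =>
      intro m hm
      have h1 := L.per hc (m + 4 * k) (by omega)
      have e : m + 4 * ((k + 1 : ℕ) : ℤ) = m + 4 * k + 4 := by push_cast; ring
      rw [e]
      exact (ih m hm).trans h1
  rcases le_total m m' with hle | hle
  · obtain ⟨k, hk⟩ : ∃ k : ℕ, m' = m + 4 * k := ⟨((m' - m) / 4).toNat, by omega⟩
    rw [hk]
    exact key k m hm
  · obtain ⟨k, hk⟩ : ∃ k : ℕ, m = m' + 4 * k := ⟨((m - m') / 4).toNat, by omega⟩
    rw [hk]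
    exact (key k m' hm').symm

theorem up1 (L : LD SC SB t a b h X R) {c : ℝ} {x : G} (hc : h x = c) (h1 : 0 < (X x).re)
    {m : ℤ} (hm : (qd (X x) - m) % 4 = 0) : P SC SB t h c (x * t) (V a b t x m) := by
  rcases qd_cases (L.gen x) (L.im_ne x) with ⟨hq, -, h3⟩ | ⟨hq, -, h3⟩ | ⟨-, h3, -⟩ | ⟨-, h3, -⟩
  · have e : V a b t x 0 = x * t := by simp [V]
    rw [← e]
    exact L.lifts hc (by rw [hq]; rfl) hm
  · have e : V a b t x 1 = x * ((a * b) ^ 3)⁻¹ * t := by simp [V]
    have a1 := L.C1 (y := x * ((a * b) ^ 3)⁻¹) (c := c)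
      (by rw [L.hK (Subgroup.inv_mem _ L.zK)]; exact hc) (by rw [L.XZi]; simpa using h3)
      (by rw [L.XZi]; simpa using h1)
    rw [inv_mul_cancel_right, ← e] at a1
    exact a1.symm.trans (L.lifts hc (by rw [hq]; rfl) hm)
  · exact absurd h1 (by linarith)
  · exact absurd h1 (by linarith)

theorem up2 (L : LD SC SB t a b h X R) {c : ℝ} {x : G} (hc : h x = c) (h1 : (X x).im < 0)
    {m : ℤ} (hm : (qd (X x) - m) % 4 = 0) : P SC SB t h c (x * t⁻¹) (V a b t x m) := by
  rcases qd_cases (L.gen x) (L.im_ne x) with ⟨hq, h3, -⟩ | ⟨-, -, h3⟩ | ⟨-, -, h3⟩ | ⟨hq, h3, -⟩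
  · have e : V a b t x 0 = x * t := by simp [V]
    exact (L.C2 hc h3 h1).trans (e ▸ L.lifts hc (m := 0) (by rw [hq]; rfl) hm)
  · exact absurd h1 (by linarith)
  · exact absurd h1 (by linarith)
  · have e : V a b t x (-1) = x * (a * b) ^ 3 * t := by simp [V]
    have hzc : h (x * (a * b) ^ 3) = c := by rw [L.hK L.zK]; exact hc
    have a1 := L.C1' hc h3 h1
    have a2 := L.C2 hzc (by rw [L.XZ]; simpa using h1) (by rw [L.XZ]; simpa using h3)
    rw [← e] at a2
    exact a1.trans (a2.trans (L.lifts hc (by rw [hq]; rfl) hm))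

theorem genS (L : LD SC SB t a b h X R) {c : ℝ} {s : G} (hs : s ∈ SC ∪ SB) {x : G}
    (hc : h x = c) {m m' : ℤ} (hm : (qd (X x) - m) % 4 = 0)
    (hm' : (qd (X (x * s)) - m') % 4 = 0) :
    P SC SB t h c (V a b t x m) (V a b t (x * s) m') := by
  have hxs : h (x * s) = c := by rw [L.hs _ s hs]; exact hc
  rcases hs with hs | hs
  · exact (L.edgeC hs hc hm).trans (L.lifts hxs (by rw [L.Xs hs]; exact hm) hm')
  · have e1 := L.edge hs hc (m := m) (m' := m + ((qd (X (x * s)) - m + 1) % 4 - 1)) hm (by omega)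
      (by omega) (by omega)
    exact e1.trans (L.lifts hxs (by omega) hm')

theorem genK (L : LD SC SB t a b h X R) {c : ℝ} {k : G}
    (hk : k ∈ Subgroup.closure (SC ∪ SB)) {x : G} (hc : h x = c) {m m' : ℤ}
    (hm : (qd (X x) - m) % 4 = 0) (hm' : (qd (X (x * k)) - m') % 4 = 0) :
    P SC SB t h c (V a b t x m) (V a b t (x * k) m') := by
  induction hk using Subgroup.closure_induction generalizing x m m' with
  | mem s hs => exact L.genS hs hc hm hm'
  | one =>
    rw [mul_one] at hm' ⊢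
    exact L.lifts hc hm hm'
  | mul u v hu hv ihu ihv =>
    have hxu : h (x * u) = c := by rw [L.hK hu]; exact hc
    rw [← mul_assoc] at hm' ⊢
    exact (ihu hc hm (m' := qd (X (x * u))) (by simp)).trans (ihv hxu (by simp) hm')
  | inv u hu ihu =>
    have hxu : h (x * u⁻¹) = c := by rw [L.hK (Subgroup.inv_mem _ hu)]; exact hc
    have e : x * u⁻¹ * u = x := by group
    have := ihu (x := x * u⁻¹) hxu (m := m') (m' := m) hm' (by rw [e]; exact hm)
    rw [e] at this
    exact this.symm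

/-- **The link lemma.** All upper neighbours of the vertex `1` are connected above it. -/
theorem link (L : LD SC SB t a b h X R) {k s s' : G} (hk : k ∈ Subgroup.closure (SC ∪ SB))
    (hs : s = t ∨ s = t⁻¹) (hs' : s' = t ∨ s' = t⁻¹) (h1 : h 1 < h (k * s)) (h2 : h 1 < h s') :
    P SC SB t h (h 1) (k * s) s' := by
  have hc : h k = h 1 := by
    have := L.hK hk 1
    rwa [one_mul] at this
  have e := L.genK hk (x := 1) (c := h 1) rfl (m := qd (X 1)) (m' := qd (X k)) (by simp)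
    (by rw [one_mul]; simp)
  rw [one_mul] at e
  have e1 : P SC SB t h (h 1) (k * s) (V a b t k (qd (X k))) := by
    rcases hs with rfl | rfl
    · rw [L.ht, hc] at h1
      exact L.up1 hc (by linarith) (by simp)
    · rw [L.ht', hc] at h1
      exact L.up2 hc (by linarith) (by simp)
  have e2 : P SC SB t h (h 1) s' (V a b t 1 (qd (X 1))) := by
    rcases hs' with rfl | rfl
    · have h3 := L.ht 1
      rw [one_mul] at h3
      rw [h3] at h2
      have := L.up1 (x := 1) (c := h 1) rfl (by linarith) (m := qd (X 1)) (by simp)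
      rwa [one_mul] at this
    · have h3 := L.ht' 1
      rw [one_mul] at h3
      rw [h3] at h2
      have := L.up2 (x := 1) (c := h 1) rfl (by linarith) (m := qd (X 1)) (by simp)
      rwa [one_mul] at this
  exact e1.trans (e.symm.trans e2.symm)

end LD

end Pool.Agent.H.MP_ee9c6f_al.G3X
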