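import Pool.Agent.H.MP_ee9c6f_al.G3X.Link
import Pool.Agent.H.MP_ee9c6f_al.G3X.Act
import Pool.Agent.H.MP_ee9c6f_al.Asc.One

/-!
MP_ee9c6f_al, genus 3, exact value (helper63). The assembly, for a subgroup of finite index.
-/

set_option autoImplicit false

namespace Pool.Agent.H.MP_ee9c6f_al.G3X

open E3Rep Asc Relation Complex

/-! ### The complex functional -/

section

variable {V : Type} [AddCommGroup V] [Module ℚ V] [Module ℂ V]

/-- the complex functional with the real part `ν` -/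
noncomputable def cf (ν : V →ₗ[ℚ] ℚ) (v : V) : ℂ := (ν v : ℂ) - I * (ν (I • v) : ℂ)

theorem cf_re (ν : V →ₗ[ℚ] ℚ) (v : V) : (cf ν v).re = (ν v : ℝ) := by
  simp [cf]

theorem cf_im (ν : V →ₗ[ℚ] ℚ) (v : V) : (cf ν v).im = -(ν (I • v) : ℝ) := by
  simp [cf]

theorem cf_add (ν : V →ₗ[ℚ] ℚ) (v w : V) : cf ν (v + w) = cf ν v + cf ν w := by
  simp only [cf, smul_add, map_add]
  push_cast
  ring

theorem cf_I (ν : V →ₗ[ℚ] ℚ) (v : V) : cf ν (I • v) = I * cf ν v := by
  simp only [cf, smul_smul, I_mul_I, neg_smul, one_smul, map_neg]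
  push_cast
  linear_combination (ν (I • v) : ℂ) * I_mul_I

theorem cf_rat (ν : V →ₗ[ℚ] ℚ) (q : ℚ) (v : V) : cf ν ((q : ℂ) • v) = q * cf ν v := by
  have e : ∀ w : V, (q : ℂ) • w = q • w := by
    intro w
    have := ratCast_smul_eq ℂ ℚ q w
    rwa [Rat.cast_id] at this
  have e2 : I • (q : ℂ) • v = (q : ℂ) • (I • v) := smul_comm _ _ _
  simp only [cf]
  rw [e2, e, e, map_smul, map_smul, smul_eq_mul, smul_eq_mul]
  push_cast
  ring

end

/-! ### The group -/

/-- the generators -/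
def T (c : Fin 7) : E3.Mod3 := PresentedGroup.of c

theorem mk_c (c : Fin 7) : PresentedGroup.mk E3.modRels (E3.c c) = T c := rfl

theorem eq_of_rel {r s : FreeGroup (Fin 7)} (h : r * s⁻¹ ∈ E3.modRels) :
    PresentedGroup.mk E3.modRels r = PresentedGroup.mk E3.modRels s := by
  have h1 : PresentedGroup.mk E3.modRels (r * s⁻¹) = 1 :=
    (PresentedGroup.mk_eq_one_iff).2 (Subgroup.subset_normalClosure h)
  rw [map_mul, map_inv] at h1
  exact mul_inv_eq_one.1 h1

theorem T_braid {i j : Fin 7} (h : i < j ∧ E3.Meet i j) : T i * T j * T i = T j * T i * T j := by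
  have := eq_of_rel (r := E3.c i * E3.c j * E3.c i) (s := E3.c j * E3.c i * E3.c j)
    (Or.inl (Or.inl ⟨i, j, h.1, h.2, rfl⟩))
  simpa only [map_mul, mk_c] using this

theorem T_comm {i j : Fin 7} (h : i < j ∧ ¬ E3.Meet i j) : Commute (T i) (T j) := by
  have := eq_of_rel (r := E3.c i * E3.c j) (s := E3.c j * E3.c i)
    (Or.inl (Or.inr ⟨i, j, h.1, h.2, rfl⟩))
  simp only [map_mul, mk_c] at this
  exact this

instance (i j : Fin 7) : Decidable (E3.Meet i j) := by
  unfold E3.Meet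
  infer_instance

/-- the generators of the subgroup -/
def gs : Set E3.Mod3 := {T 1 * T 1, T 0, T 2, T 3, T 4, T 5, T 6}

/-- the subgroup -/
def Gs : Subgroup E3.Mod3 := Subgroup.closure gs

theorem T_mem {c : Fin 7} (hc : c ≠ 1) : T c ∈ Gs := by
  apply Subgroup.subset_closure
  fin_cases c
  · exact Or.inr (Or.inl rfl)
  · exact absurd rfl hc
  · exact Or.inr (Or.inr (Or.inl rfl))
  · exact Or.inr (Or.inr (Or.inr (Or.inl rfl)))
  · exact Or.inr (Or.inr (Or.inr (Or.inr (Or.inl rfl))))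
  · exact Or.inr (Or.inr (Or.inr (Or.inr (Or.inr (Or.inl rfl)))))
  · exact Or.inr (Or.inr (Or.inr (Or.inr (Or.inr (Or.inr rfl)))))

theorem T11_mem : T 1 * T 1 ∈ Gs := Subgroup.subset_closure (Or.inl rfl)

theorem wd_mem : ∀ w : Wd, (∀ x ∈ w, x.1 ≠ 1) →
    PresentedGroup.mk E3.modRels (FreeGroup.mk w) ∈ Gs := by
  intro w
  induction w with
  | nil => intro _; exact Gs.one_mem
  | cons x w ih =>
    intro h
    have e : FreeGroup.mk (x :: w) = FreeGroup.mk [x] * FreeGroup.mk w := by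
      rw [FreeGroup.mul_mk]
      rfl
    rw [e, map_mul]
    refine Gs.mul_mem ?_ (ih fun y hy => h y (List.mem_cons_of_mem _ hy))
    obtain ⟨c, b⟩ := x
    have hc : c ≠ 1 := h (c, b) List.mem_cons_self
    rcases b with _ | _
    · have e : FreeGroup.mk [(c, false)] = (FreeGroup.of c)⁻¹ := rfl
      rw [e, map_inv]
      exact Gs.inv_mem (T_mem hc)
    · exact T_mem hc

theorem z7_mem : z7 ∈ Gs := wd_mem lz7 (by decide)

theorem hI2 : (I : ℂ) ^ 2 = -1 := I_sq

/-- the point `p` -/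
noncomputable def pp : Fin 8 → ℂ := vq I lp
/-- the vector `d` -/
noncomputable def dd : Fin 8 → ℂ := vq I ld
/-- the vector `r` -/
noncomputable def rr : Fin 8 → ℂ := vq I lr

theorem T_fix (c : Fin 7) (hc : c = 0 ∨ c = 2 ∨ c = 3 ∨ c = 5 ∨ c = 6) :
    rho (K := ℂ) hI2 (T c) (7, pp) = (7, pp) := by
  rw [T, rho_of]
  rcases hc with rfl | rfl | rfl | rfl | rfl
  · exact pt0 hI2
  · exact pt2 hI2
  · exact pt3 hI2
  · exact pt5 hI2
  · exact pt6 hI2

theorem T11_fix : rho (K := ℂ) hI2 (T 1 * T 1) (7, pp) = (7, pp) := by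
  have h := pt1 hI2
  rw [map_mul, Equiv.Perm.mul_apply, T, rho_of, rho_of]
  exact h

theorem T4_pp : rho (K := ℂ) hI2 (T 4) (7, pp) = (7, pp + dd) := by
  rw [T, rho_of]
  exact (pt4 hI2).trans (by rw [e_d]; rfl)

theorem T4i_pp : rho (K := ℂ) hI2 (T 4)⁻¹ (7, pp) = (7, pp + I • dd) := by
  rw [T, rho_of_inv]
  exact (pt4' hI2).trans (by rw [e_id]; rfl)

theorem T6_d : rho (K := ℂ) hI2 (T 6) (7, pp + dd) = (7, pp + dd) := by
  rw [T, rho_of]
  have := pt6d hI2
  rw [e_d] at this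
  exact this

theorem T6_r : rho (K := ℂ) hI2 (T 6) (7, pp + rr) = (7, pp + I • rr) := by
  rw [T, rho_of]
  have := pt6r hI2
  rw [e_r, e_ir hI2] at this
  exact this

theorem T5_d : rho (K := ℂ) hI2 (T 5) (7, pp + dd) = (7, pp + (((1 + I) / 2) • dd + rr)) := by
  rw [T, rho_of]
  have := pt5d hI2
  rw [e_d, e_bd] at this
  exact this

theorem T5_r : rho (K := ℂ) hI2 (T 5) (7, pp + rr) =
    (7, pp + ((-(I / 2)) • dd + ((1 + I) / 2) • rr)) := by
  rw [T, rho_of]
  have := pt5r hI2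
  rw [e_r, e_br hI2] at this
  exact this

theorem Gs_le : Gs ≤ stab (rho_blk (K := ℂ) hI2) 7 := by
  rw [Gs, Subgroup.closure_le]
  have key : ∀ (g : E3.Mod3) (v w : Fin 8 → ℂ), rho hI2 g (7, v) = (7, w) →
      g ∈ stab (rho_blk (K := ℂ) hI2) 7 := by
    intro g v w h
    rw [mem_stab, ← fib_eq (rho_blk hI2) g 7 v, h]
  rintro g (rfl | rfl | rfl | rfl | rfl | rfl | rfl)
  · exact key _ _ _ T11_fix
  · exact key _ _ _ (T_fix 0 (by simp))
  · exact key _ _ _ (T_fix 2 (by simp))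
  · exact key _ _ _ (T_fix 3 (by simp))
  · exact key _ _ _ T4_pp
  · exact key _ _ _ (T_fix 5 (by simp))
  · exact key _ _ _ (T_fix 6 (by simp))

/-! ### The elements of the subgroup -/

def x0 : Gs := ⟨T 0, T_mem (by decide)⟩
def x2 : Gs := ⟨T 2, T_mem (by decide)⟩
def x3 : Gs := ⟨T 3, T_mem (by decide)⟩
def x4 : Gs := ⟨T 4, T_mem (by decide)⟩
def x5 : Gs := ⟨T 5, T_mem (by decide)⟩
def x6 : Gs := ⟨T 6, T_mem (by decide)⟩
def e1 : Gs := ⟨T 1 * T 1, T11_mem⟩

/-- generators which commute with `x4` -/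
def SC : Set Gs := {e1, x2, x6}
/-- generators which satisfy the braid relation with `x4` -/
def SB : Set Gs := {x3, x5, x0}

theorem comm_of {g h : Gs} (e : Commute (g : E3.Mod3) h) : Commute g h := Subtype.ext e

theorem c_e (c : Fin 7) (hc : c ≠ 1) (h : ¬ E3.Meet 1 c) (h0 : ¬ E3.Meet c 1) :
    Commute (T 1 * T 1) (T c) := by
  have h1 : Commute (T 1) (T c) := by
    rcases lt_or_gt_of_ne hc with hl | hl
    · exact (T_comm ⟨hl, h0⟩).symm
    · exact T_comm ⟨hl, h⟩
  exact h1.mul_left h1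

theorem comm4 : ∀ s ∈ SC, s * x4 = x4 * s := by
  rintro s (rfl | rfl | rfl)
  · exact comm_of (c_e 4 (by decide) (by decide) (by decide))
  · exact comm_of (T_comm (i := 2) (j := 4) (by decide))
  · exact comm_of (T_comm (i := 4) (j := 6) (by decide)).symm

theorem braid4 : ∀ s ∈ SB, s * x4 * s = x4 * s * x4 := by
  rintro s (rfl | rfl | rfl)
  · exact Subtype.ext (T_braid (i := 3) (j := 4) (by decide))
  · exact Subtype.ext (T_braid (i := 4) (j := 5) (by decide)).symm
  · exact Subtype.ext (T_braid (i := 0) (j := 4) (by decide))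

theorem ab65 : x6 * x5 * x6 = x5 * x6 * x5 :=
  Subtype.ext (T_braid (i := 5) (j := 6) (by decide)).symm

theorem zeta_a {G : Type*} [Group G] {a b : G} (h : a * b * a = b * a * b) :
    a * (a * b) ^ 3 = (a * b) ^ 3 * a ∧ b * (a * b) ^ 3 = (a * b) ^ 3 * b := by
  have e1 : a * (a * b * a) = (a * b * a) * b := by
    rw [h]
    calc a * (b * a * b) = a * b * a * b := by group
      _ = _ := by rw [h]
  have e2 : b * (a * b * a) = (a * b * a) * a := by
    calc b * (a * b * a) = (b * a * b) * a := by group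
      _ = _ := by rw [h]
  have e3 : (a * b) ^ 3 = (a * b * a) * (a * b * a) := by
    nth_rewrite 2 [h]
    rw [pow_succ, pow_succ, pow_one]
    group
  constructor
  · rw [e3, ← mul_assoc, e1, mul_assoc, e2, ← mul_assoc]
  · rw [e3, ← mul_assoc, e2, mul_assoc, e1, ← mul_assoc]

theorem zcc : ∀ s ∈ SC ∪ SB, s * (x6 * x5) ^ 3 = (x6 * x5) ^ 3 * s := by
  have key : ∀ s : Gs, Commute s x6 → Commute s x5 → s * (x6 * x5) ^ 3 = (x6 * x5) ^ 3 * s :=
    fun s h1 h2 => ((h1.mul_right h2).pow_right 3).eq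
  rintro s ((rfl | rfl | rfl) | (rfl | rfl | rfl))
  · exact key _ (comm_of (c_e 6 (by decide) (by decide) (by decide)))
      (comm_of (c_e 5 (by decide) (by decide) (by decide)))
  · exact key _ (comm_of (T_comm (i := 2) (j := 6) (by decide)))
      (comm_of (T_comm (i := 2) (j := 5) (by decide)))
  · exact (zeta_a ab65).1
  · exact key _ (comm_of (T_comm (i := 3) (j := 6) (by decide)))
      (comm_of (T_comm (i := 3) (j := 5) (by decide)))
  · exact (zeta_a ab65).2
  · exact key _ (comm_of (T_comm (i := 0) (j := 6) (by decide)))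
      (comm_of (T_comm (i := 0) (j := 5) (by decide)))

theorem closure_all : Subgroup.closure (SC ∪ SB ∪ {x4}) = ⊤ := by
  apply Subgroup.map_injective Gs.subtype_injective
  rw [MonoidHom.map_closure, ← MonoidHom.range_eq_map, Subgroup.range_subtype]
  apply le_antisymm
  · rw [Subgroup.closure_le]
    rintro _ ⟨g, -, rfl⟩
    exact g.2
  · refine (Subgroup.closure_le (k := gs) _).2 ?_
    rintro g (rfl | rfl | rfl | rfl | rfl | rfl | rfl)
    · exact Subgroup.subset_closure ⟨e1, Or.inl (Or.inl (Or.inl rfl)), rfl⟩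
    · exact Subgroup.subset_closure ⟨x0, Or.inl (Or.inr (Or.inr (Or.inr rfl))), rfl⟩
    · exact Subgroup.subset_closure ⟨x2, Or.inl (Or.inl (Or.inr (Or.inl rfl))), rfl⟩
    · exact Subgroup.subset_closure ⟨x3, Or.inl (Or.inr (Or.inl rfl)), rfl⟩
    · exact Subgroup.subset_closure ⟨x4, Or.inr rfl, rfl⟩
    · exact Subgroup.subset_closure ⟨x5, Or.inl (Or.inr (Or.inr (Or.inl rfl))), rfl⟩
    · exact Subgroup.subset_closure ⟨x6, Or.inl (Or.inl (Or.inr (Or.inr rfl))), rfl⟩

/-- the action -/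
noncomputable def AA : Gs →* Equiv.Perm (Fin 8 → ℂ) := oneA (rho_blk (K := ℂ) hI2) Gs_le

theorem AA_of {g : Gs} {v w : Fin 8 → ℂ} (h : rho (K := ℂ) hI2 (g : E3.Mod3) (7, v) = (7, w)) :
    AA g v = w := by
  rw [AA, oneA_apply, h]

theorem AA_fix : ∀ s ∈ SC ∪ SB, AA s pp = pp := by
  rintro s ((rfl | rfl | rfl) | (rfl | rfl | rfl))
  · exact AA_of T11_fix
  · exact AA_of (T_fix 2 (by simp))
  · exact AA_of (T_fix 6 (by simp))
  · exact AA_of (T_fix 3 (by simp))
  · exact AA_of (T_fix 5 (by simp))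
  · exact AA_of (T_fix 0 (by simp))

theorem AA_K : ∀ k ∈ Subgroup.closure (SC ∪ SB), AA k pp = pp := by
  intro k hk
  induction hk using Subgroup.closure_induction with
  | mem s hs => exact AA_fix s hs
  | one => rw [map_one]; rfl
  | mul x y _ _ hx hy => rw [map_mul, Equiv.Perm.mul_apply, hy, hx]
  | inv x _ hx => rw [map_inv, Equiv.Perm.inv_eq_iff_eq, hx]

/-- The link data of a generic functional. -/
theorem mkLD {lin : Gs → (Fin 8 → ℂ) →ₗ[ℚ] (Fin 8 → ℂ)} (hA : IsAff AA lin)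
    (ν : (Fin 8 → ℂ) →ₗ[ℚ] ℚ) (hν : ∀ g, ν (lin g dd) ≠ 0) :
    LD SC SB x4 x6 x5 (fun g => (ν (AA g pp) : ℝ)) (fun g => cf ν (lin g dd))
      (fun g => cf ν (lin g rr)) := by
  have hsm : ∀ (g : Gs) (c : ℂ) (v : Fin 8 → ℂ), lin g (c • v) = c • lin g v :=
    one_lin_smul (rho_blk (K := ℂ) hI2) Gs_le hA
  -- the linear parts of the generators
  have hl : ∀ (g : Gs) (v w : Fin 8 → ℂ), AA g pp = pp → AA g (pp + v) = pp + w → lin g v = w := by
    intro g v w h1 h2
    have h3 := hA g v pp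
    rw [add_comm v pp, h2, h1, add_comm pp w] at h3
    exact (add_right_cancel h3).symm
  have l1 : lin x6 dd = dd := hl _ _ _ (AA_of (T_fix 6 (by simp))) (AA_of T6_d)
  have l2 : lin x6 rr = I • rr := hl _ _ _ (AA_of (T_fix 6 (by simp))) (AA_of T6_r)
  have l3 : lin x5 dd = ((1 + I) / 2) • dd + rr := hl _ _ _ (AA_of (T_fix 5 (by simp))) (AA_of T5_d)
  have l4 : lin x5 rr = (-(I / 2)) • dd + ((1 + I) / 2) • rr :=
    hl _ _ _ (AA_of (T_fix 5 (by simp))) (AA_of T5_r)
  have hph : ∀ v : Fin 8 → ℂ, cf ν (((1 + I) / 2) • v) = (1 + I) / 2 * cf ν v := by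
    intro v
    have e : ((1 + I) / 2) • v = (((1 / 2 : ℚ) : ℂ)) • (v + I • v) := by
      rw [smul_add, smul_smul, ← add_smul]
      congr 1
      push_cast
      ring
    rw [e, cf_rat, cf_add, cf_I]
    push_cast
    ring
  have hmi : ∀ v : Fin 8 → ℂ, cf ν ((-(I / 2)) • v) = -(I / 2) * cf ν v := by
    intro v
    have e : (-(I / 2)) • v = (((-1 / 2 : ℚ) : ℂ)) • (I • v) := by
      rw [smul_smul]
      congr 1
      push_cast
      ring
    rw [e, cf_rat, cf_I]
    push_cast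
    ring
  refine ⟨comm4, braid4, Or.inr (Or.inr rfl), Or.inr (Or.inl rfl), ab65, zcc, ?_, ?_, ?_, ?_, ?_,
    ?_, ?_, ?_⟩
  · intro g s hs
    change (ν (AA (g * s) pp) : ℝ) = ν (AA g pp)
    rw [map_mul, Equiv.Perm.mul_apply, AA_fix s hs]
  · intro g
    change (ν (AA (g * x4) pp) : ℝ) = ν (AA g pp) + (cf ν (lin g dd)).re
    rw [map_mul, Equiv.Perm.mul_apply, AA_of (g := x4) T4_pp, add_comm pp dd, hA, map_add, cf_re]
    push_cast
    ring
  · intro g
    change (ν (AA (g * x4⁻¹) pp) : ℝ) = ν (AA g pp) - (cf ν (lin g dd)).im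
    rw [map_mul, Equiv.Perm.mul_apply, AA_of (g := x4⁻¹) T4i_pp, add_comm pp (I • dd), hA, map_add,
      cf_im, hsm]
    push_cast
    ring
  · intro g
    change cf ν (lin (g * x6) dd) = cf ν (lin g dd)
    rw [hA.mul, Module.End.mul_apply, l1]
  · intro g
    change cf ν (lin (g * x6) rr) = I * cf ν (lin g rr)
    rw [hA.mul, Module.End.mul_apply, l2, hsm, cf_I]
  · intro g
    change cf ν (lin (g * x5) dd) = (1 + I) / 2 * cf ν (lin g dd) + cf ν (lin g rr)
    rw [hA.mul, Module.End.mul_apply, l3, map_add, hsm, cf_add, hph]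
  · intro g
    change cf ν (lin (g * x5) rr) = -(I / 2) * cf ν (lin g dd) + (1 + I) / 2 * cf ν (lin g rr)
    rw [hA.mul, Module.End.mul_apply, l4, map_add, hsm, hsm, cf_add, hph, hmi]
  · intro g
    rw [cf_re]
    exact_mod_cast hν g

theorem K_fg : (Subgroup.closure (SC ∪ SB)).FG := by
  rw [Subgroup.fg_iff]
  refine ⟨SC ∪ SB, rfl, ?_⟩
  refine Set.Finite.union ?_ ?_
  · exact (((Set.finite_singleton _).insert _).insert _)
  · exact (((Set.finite_singleton _).insert _).insert _)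

theorem twoEnds (hF : Gs.FiniteIndex) : Wajnryb.TwoEnds E3.Mod3 := by
  have := hF
  have := fg_mod3
  obtain ⟨lin, hA, hfin, -⟩ := one_lin (rho_blk (K := ℂ) hI2) Gs_le
  have htp : AA x4 pp = pp + dd := AA_of T4_pp
  have hd : AA x4 pp - pp = dd := by rw [htp, add_sub_cancel_left]
  refine twoEnds_of_link Gs (A := AA) hA hfin (Subgroup.closure (SC ∪ SB)) K_fg x4 ?_ pp AA_K ?_
    (τ := Empty) (fun i => i.elim) (fun i => i.elim) ?_ ?_
  · refine top_le_iff.1 ?_
    rw [← closure_all]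
    refine (Subgroup.closure_le _).2 ?_
    rintro x (hx | hx)
    · exact Subgroup.subset_closure (Or.inl (Subgroup.subset_closure hx))
    · exact Subgroup.subset_closure (Or.inr hx)
  · refine ⟨⟨z7, z7_mem⟩, 0, fun n hn h => ?_⟩
    refine rho_z7_pow (K := ℂ) hI2 n hn ?_
    have e := rho_one (rho_blk (K := ℂ) hI2) Gs_le ((⟨z7, z7_mem⟩ : Gs) ^ n) 0
    have e' : oneA (rho_blk (K := ℂ) hI2) Gs_le ((⟨z7, z7_mem⟩ : Gs) ^ n) 0 = 0 := h
    rw [e'] at e
    exact e
  · rw [htp]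
    intro h
    exact d_ne (K := ℂ) (ι := I) (add_eq_left.1 h)
  · intro ν hν _ k hk s s' hs hs' h1 h2
    rw [hd] at hν
    have L := mkLD hA ν hν
    have e1 : (AA (1 : Gs)) pp = pp := by rw [map_one]; rfl
    have h1' : (fun g => (ν (AA g pp) : ℝ)) 1 < (fun g => (ν (AA g pp) : ℝ)) (k * s) := by
      change (ν (AA 1 pp) : ℝ) < (ν (AA (k * s) pp) : ℝ)
      rw [e1]
      exact_mod_cast h1
    have h2' : (fun g => (ν (AA g pp) : ℝ)) 1 < (fun g => (ν (AA g pp) : ℝ)) s' := by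
      change (ν (AA 1 pp) : ℝ) < (ν (AA s' pp) : ℝ)
      rw [e1]
      exact_mod_cast h2
    have h3 := L.link hk hs hs' h1' h2'
    refine ReflTransGen.mono ?_ _ _ h3
    rintro x y ⟨-, hy, u, hu, hst⟩
    refine ⟨?_, ?_⟩
    · have h4 : (ν (AA 1 pp) : ℝ) < (ν (AA y pp) : ℝ) := hy
      rw [e1] at h4
      exact_mod_cast h4
    · rcases hu with hu | hu
      · left
        have huK : u ∈ Subgroup.closure (SC ∪ SB) := Subgroup.subset_closure hu
        rcases hst with rfl | rfl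
        · rw [inv_mul_cancel_left]
          exact huK
        · have e : (y * u)⁻¹ * y = u⁻¹ := by group
          rw [e]
          exact Subgroup.inv_mem _ huK
      · right
        rw [Set.mem_singleton_iff.1 hu] at hst
        rcases hst with rfl | rfl
        · left
          group
        · right
          group

end Pool.Agent.H.MP_ee9c6f_al.G3X
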